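import Pool.Agent.H516.PCF.All

/-! S_Z0 for helper516: the first disc on the path over a given disc. -/

set_option autoImplicit false

namespace Pool.Agent.H747.PCF

open Polynomial Filter Topology Set
open Pool.Agent.H516.PCF

/-! ### Real functions -/

/-- the last time -/
theorem last {u : ℝ → ℝ} (hu : Continuous u) {t ρ₀ : ℝ} (h1 : ∃ ρ, ρ₀ ≤ ρ ∧ u ρ ≤ t)
    (h2 : ∃ ρ₁, ∀ ρ, ρ₁ ≤ ρ → t < u ρ) :
    ∃ ρ, ρ₀ ≤ ρ ∧ u ρ = t ∧ ∀ ρ', ρ < ρ' → t < u ρ' := by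
  set S : Set ℝ := {ρ | ρ₀ ≤ ρ ∧ u ρ ≤ t} with hS
  have hcl : IsClosed S := by
    have : S = Ici ρ₀ ∩ u ⁻¹' Iic t := rfl
    rw [this]
    exact isClosed_Ici.inter (isClosed_Iic.preimage hu)
  obtain ⟨ρ₁, hρ₁⟩ := h2
  have hbd : BddAbove S := by
    refine ⟨ρ₁, fun ρ hρ => ?_⟩
    by_contra h
    have := hρ₁ ρ (not_le.1 h).le
    exact absurd hρ.2 (not_le.2 this)
  have hmem := hcl.csSup_mem h1 hbd
  set s := sSup S with hs
  have hgt : ∀ ρ', s < ρ' → t < u ρ' := by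
    intro ρ' h
    by_contra h3
    exact absurd (le_csSup hbd ⟨hmem.1.trans h.le, not_lt.1 h3⟩) (not_le.2 h)
  refine ⟨s, hmem.1, le_antisymm hmem.2 ?_, hgt⟩
  have hlim : Tendsto u (𝓝[>] s) (𝓝 (u s)) := (hu.tendsto s).mono_left nhdsWithin_le_nhds
  refine ge_of_tendsto hlim ?_
  filter_upwards [self_mem_nhdsWithin] with ρ hρ
  exact (hgt ρ hρ).le

/-- the first time -/
theorem first {u : ℝ → ℝ} (hu : Continuous u) {t ρ₀ : ℝ} (h1 : ∃ ρ, ρ₀ ≤ ρ ∧ u ρ ≤ t)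
    (h0 : t < u ρ₀) :
    ∃ ρ, ρ₀ < ρ ∧ u ρ = t ∧ ∀ ρ', ρ₀ ≤ ρ' → ρ' < ρ → t < u ρ' := by
  set S : Set ℝ := {ρ | ρ₀ ≤ ρ ∧ u ρ ≤ t} with hS
  have hcl : IsClosed S := by
    have : S = Ici ρ₀ ∩ u ⁻¹' Iic t := rfl
    rw [this]
    exact isClosed_Ici.inter (isClosed_Iic.preimage hu)
  have hbd : BddBelow S := ⟨ρ₀, fun ρ hρ => hρ.1⟩
  have hmem := hcl.csInf_mem h1 hbd
  set s := sInf S with hs
  have hlt : ∀ ρ', ρ₀ ≤ ρ' → ρ' < s → t < u ρ' := by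
    intro ρ' h h'
    by_contra h3
    exact absurd (csInf_le hbd ⟨h, not_lt.1 h3⟩) (not_le.2 h')
  have hs0 : ρ₀ < s := by
    rcases hmem.1.eq_or_lt with h | h
    · rw [← h] at hmem
      exact absurd hmem.2 (not_le.2 h0)
    · exact h
  refine ⟨s, hs0, le_antisymm hmem.2 ?_, hlt⟩
  have hlim : Tendsto u (𝓝[<] s) (𝓝 (u s)) := (hu.tendsto s).mono_left nhdsWithin_le_nhds
  refine ge_of_tendsto hlim ?_
  filter_upwards [Ioo_mem_nhdsLT hs0] with ρ hρ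
  exact (hlt ρ hρ.1.le hρ.2).le

theorem eq_right {f : ℝ → ℝ} (hf : Continuous f) {t s : ℝ} (h : ∀ ρ, s < ρ → f ρ = t) :
    f s = t := by
  have hlim : Tendsto f (𝓝[>] s) (𝓝 (f s)) := (hf.tendsto s).mono_left nhdsWithin_le_nhds
  have h2 : Tendsto f (𝓝[>] s) (𝓝 t) := by
    refine (tendsto_const_nhds (x := t)).congr' ?_
    filter_upwards [self_mem_nhdsWithin] with ρ hρ
    exact (h ρ hρ).symm
  exact tendsto_nhds_unique hlim h2

theorem eq_left {f : ℝ → ℝ} (hf : Continuous f) {t s ρ₀ : ℝ} (hs : ρ₀ < s)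
    (h : ∀ ρ, ρ₀ ≤ ρ → ρ < s → f ρ = t) : f s = t := by
  have hlim : Tendsto f (𝓝[<] s) (𝓝 (f s)) := (hf.tendsto s).mono_left nhdsWithin_le_nhds
  have h2 : Tendsto f (𝓝[<] s) (𝓝 t) := by
    refine (tendsto_const_nhds (x := t)).congr' ?_
    filter_upwards [Ioo_mem_nhdsLT hs] with ρ hρ
    exact (h ρ hρ.1.le hρ.2).symm
  exact tendsto_nhds_unique hlim h2

/-! ### Gauss valuations near a root -/

section gauss

variable {F : Type} [Field F] (w : F → ℝ)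

theorem mn_self (a : F) (ρ : ℝ) : mn w a a ρ = ρ := by
  unfold mn
  rw [if_pos rfl]

theorem mn_le {a z : F} (h : a ≠ z) (ρ : ℝ) : mn w a z ρ ≤ w (a - z) := by
  unfold mn
  rw [if_neg h]
  exact min_le_left _ _

theorem mn_mono (a z : F) {ρ ρ' : ℝ} (h : ρ ≤ ρ') : mn w a z ρ ≤ mn w a z ρ' := by
  unfold mn
  split_ifs
  · exact h
  · exact min_le_min_left _ h

theorem gv_le {V : F[X]} {a : F} (ha : a ∉ V.roots) (ρ : ℝ) :
    gv w V a ρ ≤ w V.leadingCoeff + (V.roots.map fun z => w (a - z)).sum := by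
  unfold gv
  refine add_le_add le_rfl (Multiset.sum_map_le_sum_map _ _ fun z hz => ?_)
  exact mn_le w (fun h => ha (by rw [h]; exact hz)) ρ

theorem gv_ge {U : F[X]} {a : F} (ha : a ∈ U.roots) :
    ∃ c : ℝ, ∀ ρ : ℝ, 0 ≤ ρ → ρ + c ≤ gv w U a ρ := by
  classical
  refine ⟨w U.leadingCoeff + (((U.roots.erase a)).map fun z => mn w a z 0).sum, fun ρ hρ => ?_⟩
  have h1 : (U.roots.map fun z => mn w a z ρ).sum =
      ρ + ((U.roots.erase a).map fun z => mn w a z ρ).sum := by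
    conv_lhs => rw [← Multiset.cons_erase ha]
    rw [Multiset.map_cons, Multiset.sum_cons, mn_self]
  have h2 : ((U.roots.erase a).map fun z => mn w a z 0).sum ≤
      ((U.roots.erase a).map fun z => mn w a z ρ).sum :=
    Multiset.sum_map_le_sum_map _ _ fun z _ => mn_mono w a z hρ
  unfold gv
  rw [h1]
  linarith

theorem big {U V : F[X]} {a : F} (hU : a ∈ U.roots) (hV : a ∉ V.roots) (M : ℝ) :
    ∃ ρ₁, ∀ ρ, ρ₁ ≤ ρ → M < gv w U a ρ - gv w V a ρ := by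
  obtain ⟨c, hc⟩ := gv_ge w hU
  set B : ℝ := w V.leadingCoeff + (V.roots.map fun z => w (a - z)).sum with hB
  refine ⟨max 0 (M + B - c + 1), fun ρ hρ => ?_⟩
  have h1 := hc ρ ((le_max_left _ _).trans hρ)
  have h2 := gv_le w hV ρ
  have h3 : M + B - c + 1 ≤ ρ := (le_max_right _ _).trans hρ
  linarith

end gauss

theorem z0 (hNAB : S_NAB) (hGVB : S_GVB) (hUM : S_UM) (hOFIB : S_OFIB) (hFIB : S_FIB) : S_Z0 := by
  intro F _ _ _ p w d P Q A O hL γ₁ hγ₁ κ hκ t ht n β c V hpath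
  obtain ⟨hβ, hqc, hfc, hβc, -⟩ := hpath
  obtain ⟨-, hneg, -, -, -, hsub, -⟩ := hNAB F p w hL.prime hL.na
  obtain ⟨-, hC, hcont, hcen, -, hlin⟩ := hGVB F p w hL.prime hL.na
  have hum := hUM F p w hL.prime hL.na
  obtain ⟨-, hgp0, hq0, -, -, -, hrel, -⟩ := hOFIB F p w d P Q A O hL n
  have hfib := hFIB F d P Q hL.nrm n
  have hγκ : γ₁ ≠ κ := fun h => hL.disj γ₁ hγ₁ (by rw [h]; exact hκ)
  have hβq : (qn d P Q n).eval β ≠ 0 := (((hfib γ₁).2.1 β).1 hβ).1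
  have hβr : β ∈ (gp d P Q n γ₁).roots := hβ
  have hβq' : β ∉ (qn d P Q n).roots := fun h => hβq ((mem_roots hq0).1 h)
  have hcκ : c ∈ (gp d P Q n κ).roots := ((hfib κ).2.1 c).2 ⟨hqc, hfc⟩
  have hcq' : c ∉ (qn d P Q n).roots := fun h => hqc ((mem_roots hq0).1 h)
  have hucont : ∀ γ a, Continuous fun ρ => vf w d P Q n γ a ρ := by
    intro γ a
    unfold vf
    exact (hcont _ a).sub (hcont _ a)
  -- comparison
  have hcmp : ∀ γ, γ ≠ γ₁ → w (γ - γ₁) = t → ∀ a ρ, t < vf w d P Q n γ₁ a ρ →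
      vf w d P Q n γ a ρ = t := by
    intro γ hγ hwt a ρ hlt
    have h1 : gp d P Q n γ = gp d P Q n γ₁ + C (γ₁ - γ) * qn d P Q n := hrel γ₁ γ
    have h2 : γ₁ - γ ≠ 0 := sub_ne_zero.2 (Ne.symm hγ)
    have h3 : C (γ₁ - γ) * qn d P Q n ≠ 0 := mul_ne_zero (C_ne_zero.2 h2) hq0
    have h4 := (hum _ _ _ (hgp0 γ₁) h3 (hgp0 γ) h1 a ρ).2.2
    have h5 := hC (γ₁ - γ) (qn d P Q n) h2 hq0 a ρ
    have h6 : w (γ₁ - γ) = t := by rw [hsub γ₁ γ (Ne.symm hγ), hwt]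
    rw [h5, h6] at h4
    unfold vf at hlt ⊢
    rw [h4 (by linarith)]
    ring
  by_cases hB : ∃ ρ, w (β - c) ≤ ρ ∧ vf w d P Q n γ₁ β ρ ≤ t
  · -- Case B
    obtain ⟨ρ, hρ0, hρt, hgt⟩ := last (hucont γ₁ β) hB (big w hβr hβq' t)
    refine ⟨β, ρ, Or.inl rfl, hρ0, hρt, ?_, Or.inl ?_⟩
    · intro γ hγ hwt
      exact eq_right (hucont γ β) fun ρ' h => hcmp γ hγ hwt β ρ' (hgt ρ' h)
    · obtain ⟨ε₁, hε₁, h1⟩ := hlin (gp d P Q n γ₁) β ρ
      obtain ⟨ε₂, hε₂, h2⟩ := hlin (qn d P Q n) β ρ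
      set h : ℝ := min ε₁ ε₂ / 2 with hh
      have hh0 : 0 < h := by
        have := lt_min hε₁ hε₂
        positivity
      have hh1 : h < ε₁ := by
        have := min_le_left ε₁ ε₂
        linarith
      have hh2 : h < ε₂ := by
        have := min_le_right ε₁ ε₂
        linarith
      have e1 := (h1 h hh0.le hh1).1
      have e2 := (h2 h hh0.le hh2).1
      have e3 := hgt (ρ + h) (by linarith)
      unfold vf at e3 hρt
      rw [e1, e2] at e3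
      have e4 : 0 < ((cnt w (gp d P Q n γ₁) β ρ : ℝ) - cnt w (qn d P Q n) β ρ) * h := by
        linarith
      have e5 : 0 < (cnt w (gp d P Q n γ₁) β ρ : ℝ) - cnt w (qn d P Q n) β ρ :=
        pos_of_mul_pos_left e4 hh0.le
      have e6 : (cnt w (qn d P Q n) β ρ : ℝ) < cnt w (gp d P Q n γ₁) β ρ := by linarith
      exact_mod_cast e6
  · -- Case C
    push Not at hB
    have h0 : t < vf w d P Q n γ₁ c (w (β - c)) := by
      have h1 := hB (w (β - c)) le_rfl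
      have h2 := (hcen (gp d P Q n γ₁) β c (w (β - c)) (Or.inr le_rfl) _ le_rfl).1
      have h3 := (hcen (qn d P Q n) β c (w (β - c)) (Or.inr le_rfl) _ le_rfl).1
      unfold vf at h1 ⊢
      rwa [h2, h3] at h1
    have hex : ∃ ρ, w (β - c) ≤ ρ ∧ vf w d P Q n γ₁ c ρ ≤ t := by
      obtain ⟨ρ₁, hρ₁⟩ := big w hcκ hcq' (w (κ - γ₁))
      refine ⟨max ρ₁ (w (β - c)), le_max_right _ _, ?_⟩
      have h1 := hρ₁ (max ρ₁ (w (β - c))) (le_max_left _ _)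
      have h2 : gp d P Q n γ₁ = gp d P Q n κ + C (κ - γ₁) * qn d P Q n := hrel κ γ₁
      have h3 : κ - γ₁ ≠ 0 := sub_ne_zero.2 (Ne.symm hγκ)
      have h4 : C (κ - γ₁) * qn d P Q n ≠ 0 := mul_ne_zero (C_ne_zero.2 h3) hq0
      have h5 := (hum _ _ _ (hgp0 κ) h4 (hgp0 γ₁) h2 c (max ρ₁ (w (β - c)))).2.2
      have h6 := hC (κ - γ₁) (qn d P Q n) h3 hq0 c (max ρ₁ (w (β - c)))
      rw [h6] at h5
      have h7 := h5 (by linarith)
      have h8 : w (κ - γ₁) = w (γ₁ - κ) := hsub κ γ₁ (Ne.symm hγκ)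
      unfold vf
      rw [h7]
      linarith
    obtain ⟨ρ, hρ0, hρt, hlt⟩ := first (hucont γ₁ c) hex h0
    refine ⟨c, ρ, Or.inr rfl, hρ0.le, hρt, ?_, Or.inr ?_⟩
    · intro γ hγ hwt
      exact eq_left (hucont γ c) hρ0 fun ρ' h h' => hcmp γ hγ hwt c ρ' (hlt ρ' h h')
    · obtain ⟨ε₁, hε₁, h1⟩ := hlin (gp d P Q n γ₁) c ρ
      obtain ⟨ε₂, hε₂, h2⟩ := hlin (qn d P Q n) c ρ
      set h : ℝ := min (min ε₁ ε₂) (ρ - w (β - c)) / 2 with hh
      have hmin : 0 < min (min ε₁ ε₂) (ρ - w (β - c)) :=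
        lt_min (lt_min hε₁ hε₂) (by linarith)
      have hm1 : min (min ε₁ ε₂) (ρ - w (β - c)) ≤ ε₁ :=
        (min_le_left _ _).trans (min_le_left _ _)
      have hm2 : min (min ε₁ ε₂) (ρ - w (β - c)) ≤ ε₂ :=
        (min_le_left _ _).trans (min_le_right _ _)
      have hm3 : min (min ε₁ ε₂) (ρ - w (β - c)) ≤ ρ - w (β - c) := min_le_right _ _
      have hh0 : 0 < h := by positivity
      have e1 := (h1 h hh0.le (by linarith)).2.1
      have e2 := (h2 h hh0.le (by linarith)).2.1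
      have e3 := hlt (ρ - h) (by linarith) (by linarith)
      unfold vf at e3 hρt
      rw [e1, e2] at e3
      have e4 : 0 < ((ccnt w (qn d P Q n) c ρ : ℝ) - ccnt w (gp d P Q n γ₁) c ρ) * h := by
        linarith
      have e5 : 0 < (ccnt w (qn d P Q n) c ρ : ℝ) - ccnt w (gp d P Q n γ₁) c ρ :=
        pos_of_mul_pos_left e4 hh0.le
      have e6 : (ccnt w (gp d P Q n γ₁) c ρ : ℝ) < ccnt w (qn d P Q n) c ρ := by linarith
      exact_mod_cast e6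

end Pool.Agent.H747.PCF
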